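import Pool.Agent.W290.GZ.Bound

/-!
# GZ-A5: the numerical value
-/

set_option autoImplicit false

namespace Pool.Agent.W290.GZ

open Finset Pool.Agent.W34.GB Filter Topology

noncomputable section

lemma cast_tendsto : Tendsto (fun h : ℕ => (h : ℝ)) atTop atTop := tendsto_natCast_atTop_atTop

lemma logh : Tendsto (fun h : ℕ => Real.log h / h) atTop (𝓝 0) := by
  have h1 := Real.tendsto_pow_log_div_mul_add_atTop 1 0 1 one_ne_zero
  have h2 := h1.comp cast_tendsto
  refine h2.congr fun h => ?_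
  simp

lemma invh : Tendsto (fun h : ℕ => 1 / (h : ℝ)) atTop (𝓝 0) := tendsto_one_div_atTop_nhds_zero_nat

section
variable {a : ℕ → ℝ} {α C : ℝ}

/-- bounded times `log h / h` -/
lemma bdd_log (ha : ∀ h, |a h - α * h| ≤ C) :
    Tendsto (fun h : ℕ => (a h - α * h) * (Real.log h / h)) atTop (𝓝 0) := by
  rw [tendsto_zero_iff_abs_tendsto_zero]
  have h1 : Tendsto (fun h : ℕ => C * |Real.log h / h|) atTop (𝓝 0) := by
    have := (logh.abs).const_mul C
    simpa using this
  refine squeeze_zero (fun h => abs_nonneg _) (fun h => ?_) h1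
  simp only [Function.comp_apply, abs_mul]
  exact mul_le_mul_of_nonneg_right (ha h) (abs_nonneg _)

lemma bdd_inv (ha : ∀ h, |a h - α * h| ≤ C) :
    Tendsto (fun h : ℕ => (a h - α * h) * (1 / (h : ℝ))) atTop (𝓝 0) := by
  rw [tendsto_zero_iff_abs_tendsto_zero]
  have h1 : Tendsto (fun h : ℕ => C * |1 / (h : ℝ)|) atTop (𝓝 0) := by
    have := (invh.abs).const_mul C
    simpa using this
  refine squeeze_zero (fun h => abs_nonneg _) (fun h => ?_) h1
  simp only [Function.comp_apply, abs_mul]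
  exact mul_le_mul_of_nonneg_right (ha h) (abs_nonneg _)

lemma ratio (ha : ∀ h, |a h - α * h| ≤ C) : Tendsto (fun h : ℕ => a h / h) atTop (𝓝 α) := by
  have h1 := (bdd_inv ha).add_const α
  rw [zero_add] at h1
  refine h1.congr' ?_
  filter_upwards [eventually_ge_atTop 1] with h hh
  have : (0 : ℝ) < h := by exact_mod_cast hh
  field_simp
  ring

lemma ratio_sq (ha : ∀ h, |a h - α * h| ≤ C) :
    Tendsto (fun h : ℕ => a h ^ 2 / (h : ℝ) ^ 2) atTop (𝓝 (α ^ 2)) := by
  refine ((ratio ha).pow 2).congr fun h => ?_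
  rw [div_pow]

lemma xlog (hα : 0 < α) (ha : ∀ h, |a h - α * h| ≤ C) :
    Tendsto (fun h : ℕ => a h ^ 2 * Real.log (a h) / (h : ℝ) ^ 2 - α ^ 2 * Real.log h) atTop
      (𝓝 (α ^ 2 * Real.log α)) := by
  have hr := ratio ha
  have h1 : Tendsto (fun h : ℕ => (a h / h) ^ 2 * Real.log (a h / h)) atTop
      (𝓝 (α ^ 2 * Real.log α)) :=
    (hr.pow 2).mul ((Real.continuousAt_log hα.ne').tendsto.comp hr)
  have h2 : Tendsto (fun h : ℕ => (a h - α * h) * (Real.log h / h) * (a h / h + α)) atTop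
      (𝓝 (0 * (α + α))) := (bdd_log ha).mul (hr.add_const α)
  have h3 := h1.add h2
  rw [zero_mul, add_zero] at h3
  refine h3.congr' ?_
  have hpos : ∀ᶠ h : ℕ in atTop, 0 < a h / h := hr.eventually (lt_mem_nhds hα)
  filter_upwards [eventually_ge_atTop 1, hpos] with h hh hp
  have hh' : (0 : ℝ) < h := by exact_mod_cast hh
  have hap : 0 < a h := by
    rcases div_pos_iff.mp hp with h4 | h4
    · exact h4.1
    · linarith [h4.2]
  have e1 : Real.log (a h) = Real.log (a h / h) + Real.log h := by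
    rw [Real.log_div hap.ne' hh'.ne']
    ring
  rw [e1]
  field_simp
  ring

end

lemma KK_bound (h : ℕ) : |(KK h : ℝ) - 1 / 3 * h| ≤ 1 := by
  have h1 : 3 * KK h ≤ h := by unfold KK; omega
  have h2 : h ≤ 3 * KK h + 2 := by unfold KK; omega
  have h3 : (3 * KK h : ℝ) ≤ h := by exact_mod_cast h1
  have h4 : (h : ℝ) ≤ 3 * KK h + 2 := by exact_mod_cast h2
  rw [abs_le]
  constructor <;> linarith

lemma logs : 91 / 9 * Real.log 3 - 98 / 9 * Real.log 7 + 10 / 9 * Real.log 2 ≤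
    -(132 / 10) * Real.log 2 := by
  have h1 : 5 * Real.log 3 ≤ 8 * Real.log 2 := by
    have : Real.log (3 ^ 5) ≤ Real.log (2 ^ 8) := Real.log_le_log (by norm_num) (by norm_num)
    rw [Real.log_pow, Real.log_pow] at this
    exact_mod_cast this
  have h2 : 14 * Real.log 2 ≤ 5 * Real.log 7 := by
    have : Real.log (2 ^ 14) ≤ Real.log (7 ^ 5) := Real.log_le_log (by norm_num) (by norm_num)
    rw [Real.log_pow, Real.log_pow] at this
    exact_mod_cast this
  linarith

/-- A5: the numerical value -/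
theorem a5 : A5s := by
  have hK := KK_bound
  have ha : ∀ h : ℕ, |((KK h : ℝ) + 1 / 2) - 1 / 3 * h| ≤ 2 := by
    intro h
    have := abs_le.mp (hK h)
    rw [abs_le]; constructor <;> linarith [this.1, this.2]
  have hb : ∀ h : ℕ, |((KK h : ℝ) - 1 / 2 + 2 * h) - 7 / 3 * h| ≤ 2 := by
    intro h
    have := abs_le.mp (hK h)
    rw [abs_le]; constructor <;> linarith [this.1, this.2]
  have hc : ∀ h : ℕ, |(2 * (h : ℝ)) - 2 * h| ≤ 0 := by
    intro h
    simp
  have hN : ∀ h : ℕ, |(3 * (h : ℝ) - 2 * (KK h : ℝ)) - 7 / 3 * h| ≤ 2 := by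
    intro h
    have := abs_le.mp (hK h)
    rw [abs_le]; constructor <;> linarith [this.1, this.2]
  have hN1 : ∀ h : ℕ, |(3 * (h : ℝ) - 2 * (KK h : ℝ) + 1) - 7 / 3 * h| ≤ 3 := by
    intro h
    have := abs_le.mp (hK h)
    rw [abs_le]; constructor <;> linarith [this.1, this.2]
  have hN2 : ∀ h : ℕ, |(3 * (h : ℝ) - 2 * (KK h : ℝ) - 1) - 7 / 3 * h| ≤ 3 := by
    intro h
    have := abs_le.mp (hK h)
    rw [abs_le]; constructor <;> linarith [this.1, this.2]
  have hS : ∀ h : ℕ, |(4 * (KK h : ℝ) - 6 * (h : ℝ)) - (-(14 / 3)) * h| ≤ 4 := by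
    intro h
    have := abs_le.mp (hK h)
    rw [abs_le]; constructor <;> linarith [this.1, this.2]
  have Xa := xlog (by norm_num) ha
  have Ya := ratio_sq ha
  have Xb := xlog (by norm_num) hb
  have Yb := ratio_sq hb
  have Xc := xlog (by norm_num) hc
  have Yc := ratio_sq hc
  have Xk := xlog (by norm_num) hK
  have Yk := ratio_sq hK
  have Xn := xlog (by norm_num) hN1
  have Yn := ratio_sq hN1
  have RN := ratio hN
  have RN2 := ratio hN2
  have RS := ratio hS
  -- the term N * sR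
  have W1 : Tendsto (fun h : ℕ => ((3 * (h : ℝ) - 2 * (KK h : ℝ)) - 7 / 3 * h) * (Real.log h / h) *
      ((4 * (KK h : ℝ) - 6 * (h : ℝ)) / h) + 7 / 3 *
      (((4 * (KK h : ℝ) - 6 * (h : ℝ)) - (-(14 / 3)) * h) * (Real.log h / h))) atTop
      (𝓝 (0 * (-(14 / 3)) + 7 / 3 * 0)) :=
    ((bdd_log hN).mul RS).add ((bdd_log hS).const_mul _)
  have hF := (((((((((((Xa.const_mul 4).sub (Ya.const_mul 2)).sub
    ((Xb.const_mul 3).sub (Yb.const_mul (9 / 2)))).add
    ((Xc.const_mul 3).sub (Yc.const_mul (9 / 2)))).add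
    ((Xk.const_mul 3).sub (Yk.const_mul (9 / 2)))).add W1).sub
    (RN.const_mul (23 / 10))).add ((RN.mul invh).const_mul 2)).add
    (Xn.sub (Yn.const_mul (3 / 2)))).sub ((RN.mul RN2).const_mul (1 / 2 * Real.log 16))).add
    ((invh.mul invh).const_mul 8))
  have hlim : 4 * ((1 / 3) ^ 2 * Real.log (1 / 3)) - 2 * (1 / 3) ^ 2 -
      (3 * ((7 / 3) ^ 2 * Real.log (7 / 3)) - 9 / 2 * (7 / 3) ^ 2) +
      (3 * (2 ^ 2 * Real.log 2) - 9 / 2 * 2 ^ 2) +
      (3 * ((1 / 3) ^ 2 * Real.log (1 / 3)) - 9 / 2 * (1 / 3) ^ 2) +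
      (0 * (-(14 / 3)) + 7 / 3 * 0) - 23 / 10 * (7 / 3) + 2 * (7 / 3 * 0) +
      ((7 / 3) ^ 2 * Real.log (7 / 3) - 3 / 2 * (7 / 3) ^ 2) -
      1 / 2 * Real.log 16 * (7 / 3 * (7 / 3)) + 8 * (0 * 0) < (-(167 / 10) : ℝ) := by
    have e1 : Real.log (1 / 3) = -Real.log 3 := by
      rw [one_div, Real.log_inv]
    have e2 : Real.log (7 / 3) = Real.log 7 - Real.log 3 := Real.log_div (by norm_num) (by norm_num)
    have e3 : Real.log 16 = 4 * Real.log 2 := by
      rw [show (16 : ℝ) = 2 ^ 4 by norm_num, Real.log_pow]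
      norm_num
    rw [e1, e2, e3]
    have := logs
    have := Real.log_two_gt_d9
    linarith
  have hev := hF.eventually (gt_mem_nhds hlim)
  unfold A5s
  filter_upwards [hev, eventually_ge_atTop 3] with h h1 h2
  refine (fin_bound h h2).trans ?_
  have hh : (0 : ℝ) < h := by
    have : 0 < h := by omega
    exact_mod_cast this
  have h3 := mul_lt_mul_of_pos_right h1 (show (0 : ℝ) < (h : ℝ) ^ 2 by positivity)
  refine le_of_eq_of_le ?_ (show _ ≤ _ from by
    have := h3.le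
    exact sub_le_sub_right this (9 * (h : ℝ) ^ 2 * Real.log h) |>.trans (le_of_eq (by ring)))
  unfold gG sR
  field_simp
  ring

end

end Pool.Agent.W290.GZ
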