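import Pool.Agent.W290.GZ.Sums
import Pool.Agent.W34.GB.Stm

/-!
# GZ-A5: the bound for finite `h`
-/

set_option autoImplicit false

namespace Pool.Agent.W290.GZ

open Finset Pool.Agent.W34.GB

noncomputable section

lemma gG_one : gG 1 = -(3 / 4) := by
  unfold gG
  rw [Real.log_one]
  norm_num

lemma log_bb (h j : ℕ) (hj : j < 2 * KK h) : Real.log (bb h j) =
    ∑ i ∈ range j, 2 * Real.log (((2 * KK h - i : ℕ) : ℝ) / 2) -
      3 * ∑ k ∈ Icc 1 (2 * h), Real.log ((j : ℝ) / 2 + k) := by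
  have h1 : ∀ i ∈ range j, ((KK h : ℝ) - (i : ℝ) / 2) = ((2 * KK h - i : ℕ) : ℝ) / 2 := by
    intro i hi
    rw [mem_range] at hi
    rw [Nat.cast_sub (by omega)]
    push_cast
    ring
  have h2 : ∀ i ∈ range j, 0 < ((2 * KK h - i : ℕ) : ℝ) / 2 := by
    intro i hi
    rw [mem_range] at hi
    have : 0 < 2 * KK h - i := by omega
    have : (0 : ℝ) < ((2 * KK h - i : ℕ) : ℝ) := by exact_mod_cast this
    positivity
  have h3 : ∀ k ∈ Icc 1 (2 * h), 0 < (j : ℝ) / 2 + k := by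
    intro k hk
    have : 1 ≤ k := (mem_Icc.mp hk).1
    have : (1 : ℝ) ≤ k := by exact_mod_cast this
    positivity
  unfold bb
  rw [Real.log_div, Real.log_pow, Real.log_prod fun k hk => (h3 k hk).ne', Real.log_prod]
  · congr 1
    refine sum_congr rfl fun i hi => ?_
    rw [Real.log_pow, h1 i hi]
    push_cast
    ring
  · intro i hi
    rw [h1 i hi]
    exact pow_ne_zero _ (h2 i hi).ne'
  · refine prod_ne_zero_iff.mpr fun i hi => ?_
    rw [h1 i hi]
    exact pow_ne_zero _ (h2 i hi).ne'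
  · exact pow_ne_zero _ (prod_ne_zero_iff.mpr fun k hk => (h3 k hk).ne')

lemma log_cc (h n : ℕ) : Real.log (cc h n) =
    sR h + 2 * Real.log (n.factorial : ℝ) - n * Real.log 16 := by
  have h1 : (n.factorial : ℝ) ≠ 0 := by positivity
  unfold cc
  rw [Real.log_div (by positivity) (by positivity), Real.log_mul (Real.exp_ne_zero _) (by positivity),
    Real.log_exp, Real.log_pow, Real.log_pow]
  push_cast
  ring

/-- the rows `j < 2 K` -/
lemma rows1 (h : ℕ) (hh : 3 ≤ h) : ∑ j ∈ range (2 * KK h), Real.log (bb h j) ≤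
    4 * ((KK h : ℝ) + 1 / 2) ^ 2 * Real.log ((KK h : ℝ) + 1 / 2) - 2 * ((KK h : ℝ) + 1 / 2) ^ 2 + 2 -
      6 * gG ((KK h : ℝ) - 1 / 2 + 2 * h) + 6 * gG (2 * h) + 6 * gG (KK h) + 9 / 2 := by
  have hK : 1 ≤ KK h := by unfold KK; omega
  have e0 : ∑ j ∈ range (2 * KK h), Real.log (bb h j) =
      ∑ j ∈ range (2 * KK h), ∑ i ∈ range j, 2 * Real.log (((2 * KK h - i : ℕ) : ℝ) / 2) -
      3 * ∑ j ∈ range (2 * KK h), ∑ k ∈ Icc 1 (2 * h), Real.log ((j : ℝ) / 2 + k) := by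
    rw [mul_sum, ← sum_sub_distrib]
    exact sum_congr rfl fun j hj => log_bb h j (mem_range.mp hj)
  rw [e0]
  have e1 := dbl' (fun m => 2 * Real.log ((m : ℝ) / 2)) (2 * KK h)
  rw [e1]
  have e2 := part1 (2 * KK h) (by omega)
  have e3 : ∑ n ∈ range (2 * KK h), (n : ℝ) * (2 * Real.log (((n + 1 : ℕ) : ℝ) / 2)) =
      2 * ∑ n ∈ range (2 * KK h), (n : ℝ) * Real.log (((n + 1 : ℕ) : ℝ) / 2) := by
    rw [mul_sum]
    exact sum_congr rfl fun n _ => by ring
  rw [e3]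
  have e4 : (((2 * KK h : ℕ) : ℝ) + 1) / 2 = (KK h : ℝ) + 1 / 2 := by push_cast; ring
  rw [e4] at e2
  have e5 : ∑ j ∈ range (2 * KK h), (gl ((j : ℝ) / 2 + 2 * h) - gl ((j : ℝ) / 2)) ≤
      ∑ j ∈ range (2 * KK h), ∑ k ∈ Icc 1 (2 * h), Real.log ((j : ℝ) / 2 + k) := by
    refine sum_le_sum fun j _ => ?_
    have := inner ((j : ℝ) / 2) (by positivity) (2 * h)
    push_cast at this
    exact this
  rw [sum_sub_distrib] at e5
  have hh' : (3 : ℝ) ≤ h := by exact_mod_cast hh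
  have e6 := outer_ge (2 * h) (by linarith) (2 * KK h) (by omega)
  have e7 := outer_le (2 * KK h) (by omega)
  rw [gG_one] at e7
  have e8 : (((2 * KK h : ℕ) : ℝ) - 1) / 2 + 2 * h = (KK h : ℝ) - 1 / 2 + 2 * h := by
    push_cast; ring
  have e9 : ((2 * KK h : ℕ) : ℝ) / 2 = (KK h : ℝ) := by push_cast; ring
  rw [e8] at e6
  rw [e9] at e7
  linarith

/-- the rows `j ≥ 2 K` -/
lemma rows2 (h N : ℕ) : ∑ n ∈ range N, Real.log (cc h n) ≤
    N * sR h + 2 * N + 2 * gG (N + 1) + 3 / 2 - N * (N - 1) / 2 * Real.log 16 := by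
  have e0 : ∑ n ∈ range N, Real.log (cc h n) = N * sR h +
      2 * ∑ n ∈ range N, Real.log (n.factorial : ℝ) - (∑ n ∈ range N, (n : ℝ)) * Real.log 16 := by
    simp only [log_cc]
    rw [sum_sub_distrib, sum_add_distrib, sum_const, card_range, nsmul_eq_mul, mul_sum, sum_mul]
  have e1 : ∑ n ∈ range N, (n : ℝ) = N * (N - 1) / 2 := by
    induction N with
    | zero => simp
    | succ N ih =>
      rw [sum_range_succ, ih ?_]
      · push_cast; ring
      · simp only [log_cc]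
        rw [sum_sub_distrib, sum_add_distrib, sum_const, card_range, nsmul_eq_mul, mul_sum,
          sum_mul]
  have e2 := facs_le N
  rw [gG_one] at e2
  rw [e0, e1]
  linarith

/-- the bound for finite `h` -/
theorem fin_bound (h : ℕ) (hh : 3 ≤ h) : ∑ j ∈ range (3 * h), Real.log (aa h j) ≤
    4 * ((KK h : ℝ) + 1 / 2) ^ 2 * Real.log ((KK h : ℝ) + 1 / 2) - 2 * ((KK h : ℝ) + 1 / 2) ^ 2 -
      6 * gG ((KK h : ℝ) - 1 / 2 + 2 * h) + 6 * gG (2 * h) + 6 * gG (KK h) +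
      (3 * h - 2 * (KK h : ℝ)) * sR h + 2 * (3 * h - 2 * (KK h : ℝ)) +
      2 * gG (3 * h - 2 * (KK h : ℝ) + 1) -
      (3 * h - 2 * (KK h : ℝ)) * (3 * h - 2 * (KK h : ℝ) - 1) / 2 * Real.log 16 + 8 := by
  have hK : 2 * KK h ≤ 3 * h := by unfold KK; omega
  have e0 : 3 * h = 2 * KK h + (3 * h - 2 * KK h) := by omega
  have e1 : ∑ j ∈ range (3 * h), Real.log (aa h j) = ∑ j ∈ range (2 * KK h), Real.log (bb h j) +
      ∑ n ∈ range (3 * h - 2 * KK h), Real.log (cc h n) := by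
    conv_lhs => rw [e0]
    rw [sum_range_add]
    congr 1
    · refine sum_congr rfl fun j hj => ?_
      rw [aa, if_pos (mem_range.mp hj)]
    · refine sum_congr rfl fun n _ => ?_
      rw [aa, if_neg (by omega), Nat.add_sub_cancel_left]
  have e2 := rows1 h hh
  have e3 := rows2 h (3 * h - 2 * KK h)
  have e4 : ((3 * h - 2 * KK h : ℕ) : ℝ) = 3 * h - 2 * (KK h : ℝ) := by
    rw [Nat.cast_sub hK]
    push_cast
    ring
  rw [e4] at e3
  rw [e1]
  linarith

end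

end Pool.Agent.W290.GZ
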