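import Mathlib

/-!
# GZ-A5: finite sums of logarithms
-/

set_option autoImplicit false

namespace Pool.Agent.W290.GZ

open Finset

noncomputable section

/-- antiderivative of `log` -/
def gl (x : ℝ) : ℝ := x * Real.log x - x

/-- antiderivative of `gl` -/
def gG (x : ℝ) : ℝ := x ^ 2 / 2 * Real.log x - 3 * x ^ 2 / 4

lemma log_ge {x : ℝ} (hx : 0 < x) : 1 - 1 / x ≤ Real.log x := by
  have := Real.one_sub_inv_le_log_of_pos hx
  rwa [← one_div] at this

/-- `log (y / x) ≥ 1 - x / y` -/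
lemma log_sub_ge {x y : ℝ} (hx : 0 < x) (hy : 0 < y) : 1 - x / y ≤ Real.log y - Real.log x := by
  rw [← Real.log_div hy.ne' hx.ne']
  have := log_ge (x := y / x) (by positivity)
  rwa [one_div_div] at this

lemma log_sub_le {x y : ℝ} (hx : 0 < x) (hy : 0 < y) : Real.log y - Real.log x ≤ y / x - 1 := by
  rw [← Real.log_div hy.ne' hx.ne']
  exact Real.log_le_sub_one_of_pos (by positivity)

lemma gl_mono {x y : ℝ} (hx : 1 ≤ x) (hxy : x ≤ y) : gl x ≤ gl y := by
  have hx0 : 0 < x := by linarith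
  have hy0 : 0 < y := by linarith
  have h1 := log_sub_ge hx0 hy0
  have h2 : y * (1 - x / y) ≤ y * (Real.log y - Real.log x) := mul_le_mul_of_nonneg_left h1 hy0.le
  have h3 : y * (1 - x / y) = y - x := by field_simp
  have h4 : 0 ≤ (y - x) * Real.log x := mul_nonneg (by linarith) (Real.log_nonneg hx)
  unfold gl
  nlinarith

lemma gG_deriv {x : ℝ} (hx : 0 < x) : HasDerivAt gG (gl x) x := by
  have h1 := (((hasDerivAt_id x).pow 2).div_const 2).mul (Real.hasDerivAt_log hx.ne')
  have h2 := (((hasDerivAt_id x).pow 2).const_mul (3 : ℝ)).div_const 4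
  have h3 := h1.sub h2
  refine (h3.congr_deriv ?_).congr_of_eventuallyEq (Filter.Eventually.of_forall fun y => ?_)
  · simp only [gl, Pi.pow_apply, id_eq]
    push_cast
    field_simp
    ring
  · simp only [gG, Pi.sub_apply, Pi.mul_apply, Pi.pow_apply, id_eq]

/-- convexity of `gG` -/
lemma gG_step {x y : ℝ} (hx : 1 ≤ x) (hxy : x < y) :
    (y - x) * gl x ≤ gG y - gG x ∧ gG y - gG x ≤ (y - x) * gl y := by
  have hpos : ∀ z ∈ Set.Icc x y, 0 < z := fun z hz => by linarith [hz.1]
  obtain ⟨c, hc, h⟩ := exists_hasDerivAt_eq_slope gG gl hxy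
    (fun z hz => (gG_deriv (hpos z hz)).continuousAt.continuousWithinAt)
    (fun z hz => gG_deriv (hpos z ⟨hz.1.le, hz.2.le⟩))
  have hd : 0 < y - x := by linarith
  have h1 : gG y - gG x = (y - x) * gl c := by
    rw [h]
    field_simp
  rw [h1]
  exact ⟨mul_le_mul_of_nonneg_left (gl_mono hx hc.1.le) hd.le,
    mul_le_mul_of_nonneg_left (gl_mono (by linarith [hc.1]) hc.2.le) hd.le⟩

/-- reorganisation of the double sum -/
lemma dbl (f : ℕ → ℝ) (M : ℕ) : ∑ j ∈ range M, ∑ i ∈ range j, f i =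
    ∑ i ∈ range M, ((M : ℝ) - 1 - i) * f i := by
  induction M with
  | zero => simp
  | succ M ih =>
    rw [sum_range_succ, ih, sum_range_succ _ M, ← sum_add_distrib]
    push_cast
    have e : ((M : ℝ) + 1 - 1 - M) * f M = 0 := by ring
    rw [e, add_zero]
    exact sum_congr rfl fun i _ => by ring

lemma dbl' (f : ℕ → ℝ) (M : ℕ) : ∑ j ∈ range M, ∑ i ∈ range j, f (M - i) =
    ∑ n ∈ range M, (n : ℝ) * f (n + 1) := by
  rw [dbl (fun i => f (M - i)), ← sum_range_reflect]
  refine sum_congr rfl fun n hn => ?_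
  rw [mem_range] at hn
  rw [Nat.cast_sub (by omega), Nat.cast_sub (by omega)]
  congr 1
  · push_cast; ring
  · congr 1; omega

/-- the first part -/
lemma part1 (M : ℕ) (hM : 1 ≤ M) : ∑ n ∈ range M, (n : ℝ) * Real.log (((n + 1 : ℕ) : ℝ) / 2) ≤
    (2 * ((M + 1 : ℝ) / 2) ^ 2 * Real.log ((M + 1 : ℝ) / 2) - ((M + 1 : ℝ) / 2) ^ 2) + 1 := by
  induction M, hM using Nat.le_induction with
  | base =>
    simp
  | succ M hM ih =>
    rw [sum_range_succ]
    have hM' : (1 : ℝ) ≤ M := by exact_mod_cast hM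
    have hx : (0 : ℝ) < (M + 1 : ℝ) / 2 := by positivity
    have hy : (0 : ℝ) < (M + 1 + 1 : ℝ) / 2 := by positivity
    have h1 := log_sub_ge hx hy
    have h2 : 0 ≤ Real.log ((M + 1 : ℝ) / 2) := Real.log_nonneg (by linarith)
    have h3 : 1 - ((M + 1 : ℝ) / 2) / ((M + 1 + 1 : ℝ) / 2) = 1 / (M + 1 + 1) := by
      field_simp
      ring
    rw [h3] at h1
    have h4 : 2 * ((M + 1 + 1 : ℝ) / 2) ^ 2 * (1 / (M + 1 + 1)) ≤
        2 * ((M + 1 + 1 : ℝ) / 2) ^ 2 * (Real.log ((M + 1 + 1 : ℝ) / 2) -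
          Real.log ((M + 1 : ℝ) / 2)) := mul_le_mul_of_nonneg_left h1 (by positivity)
    have h5 : 2 * ((M + 1 + 1 : ℝ) / 2) ^ 2 * (1 / (M + 1 + 1)) = (M + 1 + 1 : ℝ) / 2 := by
      field_simp
    rw [h5] at h4
    push_cast at ih ⊢
    nlinarith

/-- second part: the inner sum -/
lemma inner (x : ℝ) (hx : 0 ≤ x) (n : ℕ) :
    gl (x + n) - gl x ≤ ∑ k ∈ Icc 1 n, Real.log (x + k) := by
  induction n with
  | zero => simp
  | succ n ih =>
    rw [sum_Icc_succ_top (by omega)]
    have h : gl (x + (n + 1 : ℕ)) - gl (x + n) ≤ Real.log (x + (n + 1 : ℕ)) := by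
      push_cast
      unfold gl
      rcases eq_or_lt_of_le (show 0 ≤ x + n by positivity) with h0 | h0
      · rw [← add_assoc, ← h0]
        simp
      · have h1 := log_sub_le h0 (show 0 < x + n + 1 by linarith)
        have h2 : (x + n) * (Real.log (x + n + 1) - Real.log (x + n)) ≤
            (x + n) * ((x + n + 1) / (x + n) - 1) := mul_le_mul_of_nonneg_left h1 h0.le
        have h3 : (x + n) * ((x + n + 1) / (x + n) - 1) = 1 := by
          field_simp
          ring
        rw [h3] at h2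
        rw [← add_assoc]
        nlinarith
    linarith

/-- second part: lower bound with a large shift -/
lemma outer_ge (c : ℝ) (hc : 3 ≤ c) (M : ℕ) (hM : 1 ≤ M) :
    2 * (gG (((M : ℝ) - 1) / 2 + c) - gG c) ≤ ∑ j ∈ range M, gl ((j : ℝ) / 2 + c) := by
  induction M, hM using Nat.le_induction with
  | base =>
    simp only [range_one, sum_singleton, Nat.cast_one, sub_self, zero_div, zero_add, Nat.cast_zero]
    rw [mul_zero]
    unfold gl
    have h1 : 1 ≤ Real.log c := by
      rw [Real.le_log_iff_exp_le (by linarith)]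
      linarith [Real.exp_one_lt_d9]
    nlinarith
  | succ M hM ih =>
    rw [sum_range_succ]
    have hM' : (1 : ℝ) ≤ M := by exact_mod_cast hM
    have h1 := (gG_step (x := ((M : ℝ) - 1) / 2 + c) (y := (M : ℝ) / 2 + c) (by linarith)
      (by linarith)).2
    push_cast
    have h2 : (M : ℝ) / 2 + c - (((M : ℝ) - 1) / 2 + c) = 1 / 2 := by ring
    rw [h2] at h1
    have h3 : ((M : ℝ) + 1 - 1) / 2 + c = (M : ℝ) / 2 + c := by ring
    rw [h3]
    linarith

/-- second part: upper bound -/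
lemma outer_le (M : ℕ) (hM : 2 ≤ M) :
    ∑ j ∈ range M, gl ((j : ℝ) / 2) ≤ 2 * (gG ((M : ℝ) / 2) - gG 1) := by
  induction M, hM using Nat.le_induction with
  | base =>
    rw [sum_range_succ, sum_range_one]
    norm_num
    unfold gl
    have h1 : Real.log (1 / 2) ≤ 0 := Real.log_nonpos (by norm_num) (by norm_num)
    simp only [zero_mul, sub_zero, zero_add]
    linarith
  | succ M hM ih =>
    rw [sum_range_succ]
    have hM' : (2 : ℝ) ≤ M := by exact_mod_cast hM
    have h1 := (gG_step (x := (M : ℝ) / 2) (y := ((M : ℝ) + 1) / 2) (by linarith)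
      (by linarith)).1
    push_cast
    have h2 : ((M : ℝ) + 1) / 2 - (M : ℝ) / 2 = 1 / 2 := by ring
    rw [h2] at h1
    linarith

/-- third part -/
lemma fac_le (n : ℕ) : Real.log (n.factorial : ℝ) ≤ gl (n + 1) + 1 := by
  induction n with
  | zero => simp [gl]
  | succ n ih =>
    rw [Nat.factorial_succ]
    push_cast
    rw [Real.log_mul (by positivity) (by positivity)]
    have hx : (0 : ℝ) < (n : ℝ) + 1 := by positivity
    have h1 := log_sub_ge hx (show (0 : ℝ) < (n : ℝ) + 1 + 1 by positivity)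
    have h2 : ((n : ℝ) + 1 + 1) * (1 - ((n : ℝ) + 1) / ((n : ℝ) + 1 + 1)) ≤
        ((n : ℝ) + 1 + 1) * (Real.log ((n : ℝ) + 1 + 1) - Real.log ((n : ℝ) + 1)) :=
      mul_le_mul_of_nonneg_left h1 (by positivity)
    have h3 : ((n : ℝ) + 1 + 1) * (1 - ((n : ℝ) + 1) / ((n : ℝ) + 1 + 1)) = 1 := by
      field_simp
      ring
    rw [h3] at h2
    unfold gl at ih ⊢
    nlinarith

lemma facs_le (N : ℕ) : ∑ n ∈ range N, Real.log (n.factorial : ℝ) ≤ N + (gG (N + 1) - gG 1) := by
  induction N with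
  | zero => simp
  | succ N ih =>
    rw [sum_range_succ]
    have h1 := fac_le N
    have hN : (0 : ℝ) ≤ N := Nat.cast_nonneg N
    have h2 := (gG_step (x := (N : ℝ) + 1) (y := (N : ℝ) + 1 + 1) (by linarith) (by linarith)).1
    have h3 : (N : ℝ) + 1 + 1 - ((N : ℝ) + 1) = 1 := by ring
    rw [h3, one_mul] at h2
    push_cast
    linarith

end

end Pool.Agent.W290.GZ
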